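import Pool.Agent.Y66.FI.Rings

/-!
# Two minimal partial resolutions with different Fox ideals

There are a finitely generated group `G` and two partial resolutions `C`, `D` of `G` of length
`m = 1`, both of minimal directed Euler characteristic, with `I_1(C) ≠ I_1(D)`.

`G` is a finitely generated subgroup of `Sˣ ⋉ S^d`, where `S = M_2(End(ℤ^ℕ)) × 𝔽_2`; the two
resolutions come from two generating families of the same size `d`.
-/

set_option autoImplicit false

namespace Pool.Agent.Results.MP_506947_al.FoxIdealsDiffer

open Pool.Agent.Y66.FI

theorem result : ∃ (G : Type) (_ : Group G) (C D : PRes G 1),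
    C.IsMinimal ∧ D.IsMinimal ∧ C.foxIdeal ≠ D.foxIdeal :=
  mainA

end Pool.Agent.Results.MP_506947_al.FoxIdealsDiffer
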